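import Mathlib

namespace Pool.Agent.Results.MP_c1e3ac_co.DepthNotReduced

variable {B W : Type} [Group W] {M : CoxeterMatrix B}

/-- The depth of a list of reflections: the sum of `(1 + ℓ(t)) / 2`. -/
noncomputable def listDepth (cs : CoxeterSystem M W) (l : List W) : ℕ :=
  (l.map (fun t => (1 + cs.length t) / 2)).sum

/-- The depth of `w`: the minimum of `∑ (1 + ℓ(tᵢ)) / 2` over all factorizations of `w` into
reflections. -/
noncomputable def dp (cs : CoxeterSystem M W) (w : W) : ℕ :=
  sInf {d | ∃ l : List W, (∀ t ∈ l, cs.IsReflection t) ∧ l.prod = w ∧ d = listDepth cs l}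

/-- `l` is a factorization of `w` into reflections realizing the depth of `w`. -/
def RealizesDepth (cs : CoxeterSystem M W) (l : List W) (w : W) : Prop :=
  (∀ t ∈ l, cs.IsReflection t) ∧ l.prod = w ∧ listDepth cs l = dp cs w

/-- The Coxeter matrix of the affine type `Ã₂` (all off-diagonal entries are `3`). -/
def MA : CoxeterMatrix (Fin 3) where
  M := Matrix.of fun i j => if i = j then 1 else 3
  isSymm := by decide
  diagonal := by decide
  off_diagonal := by decide

/-- the Coxeter system -/
abbrev cs : CoxeterSystem MA MA.Group := MA.toCoxeterSystem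

/-! ### A concrete action -/

/-- action of the generators on `ℤ³` (windows of affine permutations) -/
def act (i : Fin 3) (x : ℤ × ℤ × ℤ) : ℤ × ℤ × ℤ :=
  match i with
  | 0 => (x.2.2 - 3, x.2.1, x.1 + 3)
  | 1 => (x.2.1, x.1, x.2.2)
  | 2 => (x.1, x.2.2, x.2.1)

lemma act_act (i : Fin 3) (x : ℤ × ℤ × ℤ) : act i (act i x) = x := by
  obtain ⟨a, b, c⟩ := x
  fin_cases i
  · show (a + 3 - 3, b, c - 3 + 3) = (a, b, c)
    rw [add_sub_cancel_right, sub_add_cancel]
  · rfl
  · rfl

/-- the action of a generator as a permutation -/
def actE (i : Fin 3) : Equiv.Perm (ℤ × ℤ × ℤ) where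
  toFun := act i
  invFun := act i
  left_inv := act_act i
  right_inv := act_act i

lemma liftable : MA.IsLiftable actE := by
  intro i j
  by_cases hij : i = j
  · subst hij
    have : MA.M i i = 1 := MA.diagonal i
    show (actE i * actE i) ^ (MA.M i i) = 1
    rw [this, pow_one]
    ext1 x
    exact act_act i x
  · have : MA.M i j = 3 := if_neg hij
    show (actE i * actE j) ^ (MA.M i j) = 1
    rw [this]
    ext1 x
    show act i (act j (act i (act j (act i (act j x))))) = x
    obtain ⟨a, b, c⟩ := x
    fin_cases i <;> fin_cases j <;> first | exact absurd rfl hij | simp [act]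

/-- the action as a homomorphism -/
noncomputable def ρ : MA.Group →* Equiv.Perm (ℤ × ℤ × ℤ) := cs.lift ⟨actE, liftable⟩

/-- evaluation of a word -/
def ev (ω : List (Fin 3)) : ℤ × ℤ × ℤ := ω.foldr act (1, 2, 3)

lemma ev_eq (ω : List (Fin 3)) : ev ω = ρ (cs.wordProd ω) (1, 2, 3) := by
  induction ω with
  | nil => rw [CoxeterSystem.wordProd_nil, map_one]; rfl
  | cons i ω ih =>
    rw [CoxeterSystem.wordProd_cons, map_mul]
    show act i (ev ω) = ρ (cs.simple i) (ρ (cs.wordProd ω) (1, 2, 3))
    rw [← ih]
    have : ρ (cs.simple i) = actE i := cs.lift_apply_simple liftable i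
    rw [this]
    rfl

/-- the word of the example -/
def w0 : List (Fin 3) := [0, 2, 1, 0, 2, 1, 0]

/-- the element of the example -/
noncomputable def w : MA.Group := cs.wordProd w0

/-- all words of length `n` -/
def words : ℕ → List (List (Fin 3))
  | 0 => [[]]
  | n + 1 => (words n).flatMap (fun ω => [0 :: ω, 1 :: ω, 2 :: ω])

lemma mem_words (ω : List (Fin 3)) : ω ∈ words ω.length := by
  induction ω with
  | nil => simp [words]
  | cons i ω ih =>
    simp only [List.length_cons, words, List.mem_flatMap]
    refine ⟨ω, ih, ?_⟩
    fin_cases i <;> simp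

set_option maxRecDepth 100000 in
lemma check : ∀ n < 8, ((words n).all (fun ω => !(decide (ev ω = ev w0)) || decide (ω = w0))) =
    true := by
  decide +kernel

lemma unique_word (ω : List (Fin 3)) (hl : ω.length ≤ 7) (h : cs.wordProd ω = w) : ω = w0 := by
  have h1 := check ω.length (by omega)
  rw [List.all_eq_true] at h1
  have h2 := h1 ω (mem_words ω)
  have h3 : ev ω = ev w0 := by rw [ev_eq, ev_eq, h]; rfl
  simpa [h3] using h2

lemma palin : ∀ a < 8, ∀ r < 8, ((w0.drop a).take r).reverse = (w0.drop a).take r →
    ((w0.drop a).take r).length ≤ 1 := by decide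

lemma palin' {A R C : List (Fin 3)} (h : A ++ (R ++ C) = w0) (hR : R.reverse = R) :
    R.length ≤ 1 := by
  have hl := congrArg List.length h
  simp only [List.length_append] at hl
  have h7 : w0.length = 7 := rfl
  have e : (w0.drop A.length).take R.length = R := by
    rw [← h, List.drop_left, List.take_left]
  have := palin A.length (by omega) R.length (by omega)
  rw [e] at this
  exact this hR

/-- a reduced word -/
noncomputable def red (t : MA.Group) : List (Fin 3) := (cs.exists_isReduced t).choose

lemma red_prod (t : MA.Group) : cs.wordProd (red t) = t :=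
  ((cs.exists_isReduced t).choose_spec.2).symm

lemma red_length (t : MA.Group) : (red t).length = cs.length t := by
  have h := (cs.exists_isReduced t).choose_spec.1
  have h2 : cs.length (cs.wordProd (red t)) = (red t).length := h
  rw [red_prod] at h2
  exact h2.symm

lemma flat_prod (l : List MA.Group) : cs.wordProd (l.map red).flatten = l.prod := by
  induction l with
  | nil => simp
  | cons t l ih =>
    rw [List.map_cons, List.flatten_cons, CoxeterSystem.wordProd_append, red_prod, ih,
      List.prod_cons]

lemma flat_length (l : List MA.Group) : (l.map red).flatten.length = (l.map cs.length).sum := by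
  induction l with
  | nil => rfl
  | cons t l ih =>
    rw [List.map_cons, List.flatten_cons, List.length_append, red_length, ih, List.map_cons,
      List.sum_cons]

/-- in a short factorization all factors are simple -/
lemma short {l : List MA.Group} (hr : ∀ t ∈ l, cs.IsReflection t) (hp : l.prod = w)
    (hl : (l.map cs.length).sum ≤ 7) : ∀ t ∈ l, cs.length t = 1 := by
  intro t ht
  obtain ⟨l1, l2, rfl⟩ := List.append_of_mem ht
  have h1 : ((l1 ++ t :: l2).map red).flatten = w0 := by
    apply unique_word
    · rw [flat_length]; exact hl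
    · rw [flat_prod, hp]
  have h2 : (l1.map red).flatten ++ ((red t).reverse ++ (l2.map red).flatten) = w0 := by
    apply unique_word
    · rw [List.length_append, List.length_append, List.length_reverse]
      have := flat_length (l1 ++ t :: l2)
      rw [List.map_append, List.map_cons, List.flatten_append, List.flatten_cons,
        List.length_append, List.length_append] at this
      omega
    · rw [CoxeterSystem.wordProd_append, CoxeterSystem.wordProd_append,
        CoxeterSystem.wordProd_reverse, red_prod, flat_prod, flat_prod, (hr t ht).inv, ← hp,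
        List.prod_append, List.prod_cons]
  rw [List.map_append, List.map_cons, List.flatten_append, List.flatten_cons] at h1
  have h3 := h1.trans h2.symm
  have h4 := List.append_cancel_left h3
  have h5 : red t = (red t).reverse := by
    apply (List.append_inj h4 (by simp)).1
  have h6 := palin' h1 h5.symm
  rw [red_length] at h6
  have h7 := (hr t ht).odd_length
  obtain ⟨k, hk⟩ := h7
  omega

lemma braid : cs.simple 0 * (cs.simple 1 * (cs.simple 0 * cs.simple 1)) =
    cs.simple 1 * cs.simple 0 := by
  have h : (cs.simple 0 * cs.simple 1) ^ 3 = 1 := cs.simple_mul_simple_pow 0 1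
  have h2 : (cs.simple 0 * cs.simple 1) ^ 2 = (cs.simple 0 * cs.simple 1)⁻¹ := by
    rw [eq_inv_iff_mul_eq_one, ← pow_succ]; exact h
  rw [mul_inv_rev, cs.inv_simple, cs.inv_simple] at h2
  rw [← h2, pow_two]
  group

lemma dp_le : dp cs w ≤ 6 := by
  have h1 : cs.IsReflection (cs.simple 0 * cs.simple 2 * (cs.simple 0)⁻¹) := ⟨_, _, rfl⟩
  have h2 : cs.IsReflection (cs.simple 1) := cs.isReflection_simple 1
  have h3 : cs.IsReflection ((cs.simple 0 * cs.simple 1) * cs.simple 2 *
      (cs.simple 0 * cs.simple 1)⁻¹) := ⟨_, _, rfl⟩
  have e1 : cs.simple 0 * cs.simple 2 * (cs.simple 0)⁻¹ = cs.wordProd [0, 2, 0] := by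
    simp only [CoxeterSystem.wordProd, List.map_cons, List.map_nil, List.prod_cons,
      List.prod_nil, mul_one, mul_inv_rev, cs.inv_simple, mul_assoc]
  have e3 : (cs.simple 0 * cs.simple 1) * cs.simple 2 * (cs.simple 0 * cs.simple 1)⁻¹ =
      cs.wordProd [0, 1, 2, 1, 0] := by
    simp only [CoxeterSystem.wordProd, List.map_cons, List.map_nil, List.prod_cons,
      List.prod_nil, mul_one, mul_inv_rev, cs.inv_simple, mul_assoc]
  have l1 : cs.length (cs.simple 0 * cs.simple 2 * (cs.simple 0)⁻¹) ≤ 3 := by
    rw [e1]; exact cs.length_wordProd_le _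
  have l2 : cs.length (cs.simple 1) = 1 := cs.length_simple 1
  have l3 : cs.length ((cs.simple 0 * cs.simple 1) * cs.simple 2 *
      (cs.simple 0 * cs.simple 1)⁻¹) ≤ 5 := by
    rw [e3]; exact cs.length_wordProd_le _
  have hmem : listDepth cs [cs.simple 0 * cs.simple 2 * (cs.simple 0)⁻¹, cs.simple 1,
      (cs.simple 0 * cs.simple 1) * cs.simple 2 * (cs.simple 0 * cs.simple 1)⁻¹] ∈
      {d | ∃ l : List MA.Group, (∀ t ∈ l, cs.IsReflection t) ∧ l.prod = w ∧
        d = listDepth cs l} := by
    refine ⟨_, ?_, ?_, rfl⟩
    · intro t ht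
      simp only [List.mem_cons, List.not_mem_nil, or_false] at ht
      rcases ht with rfl | rfl | rfl
      · exact h1
      · exact h2
      · exact h3
    · have hb := braid
      simp only [w, w0, CoxeterSystem.wordProd, List.map_cons, List.map_nil, List.prod_cons,
        List.prod_nil, mul_one, mul_inv_rev, cs.inv_simple]
      calc cs.simple 0 * cs.simple 2 * cs.simple 0 * (cs.simple 1 * (cs.simple 0 * cs.simple 1 *
            cs.simple 2 * (cs.simple 1 * cs.simple 0)))
          = cs.simple 0 * cs.simple 2 * (cs.simple 0 * (cs.simple 1 * (cs.simple 0 *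
            cs.simple 1))) * (cs.simple 2 * (cs.simple 1 * cs.simple 0)) := by group
        _ = _ := by rw [hb]; group
  refine (Nat.sInf_le hmem).trans ?_
  simp only [listDepth, List.map_cons, List.map_nil, List.sum_cons, List.sum_nil]
  omega

/-- In the affine Coxeter group of type `Ã₂`, the element `w = s₀s₂s₁s₀s₂s₁s₀` has the property
that no factorization into reflections realizing the depth of `w` is reduced. -/
theorem result : ∃ (B : Type) (M : CoxeterMatrix B) (w : M.Group), ∀ l : List M.Group,
    RealizesDepth M.toCoxeterSystem l w →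
      M.toCoxeterSystem.length w < (l.map M.toCoxeterSystem.length).sum := by
  refine ⟨Fin 3, MA, w, ?_⟩
  rintro l ⟨hr, hp, hd⟩
  by_contra hcon
  push Not at hcon
  have h7 : cs.length w ≤ 7 := cs.length_wordProd_le w0
  have hl : (l.map cs.length).sum ≤ 7 := le_trans hcon h7
  have h1 := short hr hp hl
  have h2 : listDepth cs l = l.length := by
    unfold listDepth
    have : l.map (fun t => (1 + cs.length t) / 2) = l.map (fun _ => 1) := by
      apply List.map_congr_left
      intro t ht
      rw [h1 t ht]
    rw [this]; simp
  have h3 : (l.map cs.length).sum = l.length := by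
    have : l.map cs.length = l.map (fun _ => 1) := by
      apply List.map_congr_left
      intro t ht
      exact h1 t ht
    rw [this]; simp
  have h4 : ((l.map red).flatten) = w0 := by
    apply unique_word
    · rw [flat_length]; exact hl
    · rw [flat_prod, hp]
  have h5 := congrArg List.length h4
  rw [flat_length, h3] at h5
  have h6 : w0.length = 7 := rfl
  have h8 := dp_le
  rw [← hd, h2] at h8
  omega

end Pool.Agent.Results.MP_c1e3ac_co.DepthNotReduced
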